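import Pool.Agent.Helper33.SYM.D4

/-!
# Descent of finitely many algebraic elements to a geometrically irreducible plane curve
-/

namespace Pool.Agent.Helper16.FAM

open Polynomial

universe u

/-- Finitely many elements that are algebraic over `K(t)` lie, over a finite extension `K₁` of
`K`, in the function field `K₁(t, z)` of a geometrically irreducible plane curve. -/
theorem exists_curve {K Ω : Type u} [Field K] [CharZero K] [Field Ω] [IsAlgClosed Ω] [Algebra K Ω]
    (t : Ω) (ht : Transcendental K t) (Θ : Finset Ω)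
    (hΘ : ∀ θ ∈ Θ, IsAlgebraic (IntermediateField.adjoin K {t}) θ) :
    ∃ (K₁ : IntermediateField K Ω) (_ : FiniteDimensional K K₁) (z : Ω) (G : K₁[X][X]),
      (∀ θ ∈ Θ, θ ∈ IntermediateField.adjoin K₁ {t, z}) ∧
      G.Monic ∧ 0 < G.natDegree ∧ G.eval₂ (aeval t : K₁[X] →ₐ[K₁] Ω).toRingHom z = 0 ∧
      Irreducible (G.map (mapRingHom (algebraMap K₁ (AlgebraicClosure K₁)))) := by
  obtain ⟨K₁, hfin, Λ₁, d, l, Θ', η, z, G, -, -, -, -, -, hS', hΘz, -, hG, hr, hGz, hirr⟩ :=
    Pool.Agent.Helper33.SYM.descend_data t 0 0 (X : (algebraicClosure K Ω)[X]) ht X_ne_zero Θ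
      (by
        intro θ hθ
        have h1 := hΘ θ hθ
        have h2 : θ ∈ algebraicClosure (IntermediateField.adjoin K {t}) Ω :=
          mem_algebraicClosure_iff.mpr h1
        exact (IntermediateField.adjoin
          (algebraicClosure (IntermediateField.adjoin K {t}) Ω) {0, 0}).algebraMap_mem ⟨θ, h2⟩) 0
  refine ⟨K₁, hfin, z, G, ?_, hG, hr, hGz, hirr⟩
  intro θ hθ
  have h1 := hS' θ hθ
  have h2 : IntermediateField.adjoin K₁ ({t, 0, 0} ∪ (Θ' : Set Ω)) ≤
      IntermediateField.adjoin K₁ {t, z} := by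
    rw [IntermediateField.adjoin_le_iff]
    rintro w ((rfl | rfl | rfl) | hw)
    · exact IntermediateField.subset_adjoin _ _ (by simp)
    · exact zero_mem _
    · exact zero_mem _
    · exact hΘz w hw
  exact h2 h1

end Pool.Agent.Helper16.FAM
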