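import Mathlib

/-!
# Function fields of curves: definition
-/

namespace Pool.Agent.Helper16.FAM

/-- `L` is a function field of one variable over `k` (not necessarily algebraically closed in
`L`) and `t` is a transcendental element over whose field `k(t)` it is finite. -/
structure IsFF (k L : Type*) [Field k] [Field L] [Algebra k L] (t : L) : Prop where
  tr : Transcendental k t
  fin : FiniteDimensional (IntermediateField.adjoin k {t}) L

end Pool.Agent.Helper16.FAM
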