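import Mathlib

/-!
# Families of double covers of products of lines
-/

namespace Pool.Agent.Helper16.FAM

universe u

/-- `E` is dominated, over the algebraic closure `B'` of `B`, by a double cover type variety: `E`
is contained in `B'(x₁, …, xₙ, w₁, …, wₛ)` with `x₁, …, xₙ` algebraically independent over `B`
and `w_j ^ 2 = F_j(x₁, …, xₙ)`, where each `F_j` has degree at most four in each variable and no
variable occurs in two different `F_j`. -/
def DoubleCoverType {K E : Type u} [Field K] [Field E] [Algebra K E] (B : IntermediateField K E) :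
    Prop :=
  ∃ (n s : ℕ) (x : Fin n → AlgebraicClosure E) (w : Fin s → AlgebraicClosure E)
    (F : Fin s → MvPolynomial (Fin n) (algebraicClosure B (AlgebraicClosure E))),
    AlgebraicIndependent B x ∧ (∀ j, w j ^ 2 = MvPolynomial.aeval x (F j)) ∧
    (∀ j i, (F j).degreeOf i ≤ 4) ∧
    (∀ i j k, (F j).degreeOf i ≠ 0 → (F k).degreeOf i ≠ 0 → j = k) ∧
    ∀ e : E, algebraMap E (AlgebraicClosure E) e ∈ IntermediateField.adjoin
      (algebraicClosure B (AlgebraicClosure E)) (Set.range x ∪ Set.range w)

end Pool.Agent.Helper16.FAM
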