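import Pool.Agent.Helper16.FAM.Unbounded
import Pool.Agent.Helper26.FAM.P2
import Pool.Agent.Helper7.FAM.Q3
import Pool.Agent.Helper75.FAM.P7

/-!
# The fibre step
-/

namespace Pool.Agent.Helper16.FAM

open Polynomial

universe u

/-- The fibre step. -/
theorem fibre {k L : Type u} [Field k] [CharZero k] [Field L] [Algebra k L] {t : L}
    (h : IsFF k L t) (q : L[X]) (hq : q ≠ 0) (h4 : q.natDegree ≤ 4) :
    ∃ p : ℤ[X], q.eval (aeval t p) ≠ 0 ∧ ∀ L₀ : Subfield L, t ∈ L₀ → (∀ i, q.coeff i ∈ L₀) →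
      ∀ W : Submodule k L[X], W.FG → ∃ x ρ : L, x ∈ L₀ ∧ ρ ∈ L₀ ∧
        q.eval x = ρ ^ 2 * q.eval (aeval t p) ∧ ∀ g ∈ W, g ≠ 0 → g.eval x ≠ 0 :=
  Pool.Agent.Helper75.FAM.fibre_of (fun h => Pool.Agent.Helper7.FAM.exists_heights h)
    (fun h1 h2 W hW => Pool.Agent.Helper26.FAM.root_bound h1 h2 W hW)
    (fun L₁ q hs h4 t ht => unbounded L₁ q hs h4 t ht) h q hq h4

end Pool.Agent.Helper16.FAM
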