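import Pool.Agent.Helper16.SYM.Final
import Pool.Agent.Helper16.FAM.FamilyDef
import Pool.Agent.Helper16.FAM.Curve
import Pool.Agent.Helper16.FAM.TowerIn
import Pool.Agent.Helper94.FAM.Escape

/-!
# Symmetric powers of families over a curve
-/

namespace Pool.Agent.Helper16.FAM

open Polynomial Pool.Agent.Helper16.SYM
open scoped TensorProduct

universe u

theorem algebraicIndependent_of_forall_mem {k Ω F₁ : Type*} [Field k] [Field Ω] [Field F₁]
    [Algebra k Ω] [Algebra F₁ Ω] (F : IntermediateField k Ω) (h : ∀ a ∈ F, IsAlgebraic F₁ a)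
    {ι : Type*} {x : ι → Ω} (hx : AlgebraicIndependent F₁ x) : AlgebraicIndependent F x := by
  let i : F →+* algebraicClosure F₁ Ω :=
    { toFun := fun a => ⟨a, mem_algebraicClosure_iff.mpr (h a a.2)⟩
      map_one' := rfl
      map_mul' := fun _ _ => rfl
      map_zero' := rfl
      map_add' := fun _ _ => rfl }
  let _ : Algebra F (algebraicClosure F₁ Ω) := i.toAlgebra
  have _ : IsScalarTower F (algebraicClosure F₁ Ω) Ω := IsScalarTower.of_algebraMap_eq fun _ => rfl
  exact hx.algebraicClosure.restrictScalars i.injective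

theorem isAlgebraic_of_mem_adjoin {K₁ Ω F₁ : Type*} [Field K₁] [Field Ω] [Field F₁]
    [Algebra K₁ Ω] [Algebra F₁ Ω] (hK₁ : ∀ a : K₁, IsAlgebraic F₁ (algebraMap K₁ Ω a))
    (T : Set Ω) (hT : ∀ w ∈ T, IsAlgebraic F₁ w) :
    ∀ a ∈ IntermediateField.adjoin K₁ T, IsAlgebraic F₁ a := by
  intro a ha
  induction ha using IntermediateField.adjoin_induction with
  | mem w hw => exact hT w hw
  | algebraMap a => exact hK₁ a
  | add a b _ _ h1 h2 => exact h1.add h2
  | inv a _ h1 => exact h1.inv
  | mul a b _ _ h1 h2 => exact h1.mul h2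


theorem aeval_int_mem {R S : Type*} [CommRing R] [SetLike S R] [SubringClass S R] (L : S) {t : R}
    (ht : t ∈ L) (p : ℤ[X]) : aeval t p ∈ L := by
  rw [aeval_eq_sum_range]
  exact sum_mem fun i _ => zsmul_mem (pow_mem ht i) _

theorem fam_core (K : Type u) [Field K] [NumberField K] (E : Type u) [Field E] [Algebra K E]
    (hK : ∀ e : E, IsAlgebraic K e → e ∈ Set.range (algebraMap K E))
    (Ω : Type u) [Field Ω] [IsAlgClosed Ω] [Algebra K Ω] [Algebra E Ω] [IsScalarTower K E Ω]
    (t : Ω) (ht : Transcendental K t) {n s : ℕ} (x : Fin n → Ω) (w : Fin s → Ω)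
    (F : Fin s → MvPolynomial (Fin n) Ω)
    (hF : ∀ j m, IsAlgebraic (IntermediateField.adjoin K {t}) ((F j).coeff m))
    (hx : AlgebraicIndependent (IntermediateField.adjoin K {t}) x)
    (hw : ∀ j, w j ^ 2 = MvPolynomial.eval x (F j))
    (hdeg : ∀ j i, (F j).degreeOf i ≤ 4)
    (hdis : ∀ i j k, (F j).degreeOf i ≠ 0 → (F k).degreeOf i ≠ 0 → j = k)
    (hE : ∀ e : E, algebraMap E Ω e ∈ IntermediateField.adjoin
      (algebraicClosure (IntermediateField.adjoin K {t}) Ω) (Set.range x ∪ Set.range w))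
    (A : Type u) [CommRing A] [Algebra K A] [Algebra.FiniteType K A]
    (ι : A →ₐ[K] E) (hι : Function.Injective ι) :
    ∃ N₀ : ℕ, ∀ N ≥ N₀, PDA K (symPow K A N) := by
  classical
  obtain ⟨S₀, hS₀⟩ := (Algebra.FiniteType.out : (⊤ : Subalgebra K A).FG)
  let j : A →ₐ[K] Ω := (IsScalarTower.toAlgHom K E Ω).comp ι
  set S : Finset Ω := S₀.image j with hS
  have hSE : ∀ s ∈ S, s ∈ IntermediateField.adjoin
      (algebraicClosure (IntermediateField.adjoin K {t}) Ω) (Set.range x ∪ Set.range w) := by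
    intro s hs
    rw [hS, Finset.mem_image] at hs
    obtain ⟨a, -, rfl⟩ := hs
    exact hE (ι a)
  obtain ⟨Φ, hΦ, hΦS⟩ := Pool.Agent.Helper33.SYM.exists_finset_adjoin' (K := K) _ S hSE
  set Θ : Finset Ω := Φ ∪ Finset.univ.biUnion fun i => (F i).support.image fun m => (F i).coeff m
    with hΘdef
  have hΘ : ∀ θ ∈ Θ, IsAlgebraic (IntermediateField.adjoin K {t}) θ := by
    intro θ hθ
    rw [hΘdef, Finset.mem_union, Finset.mem_biUnion] at hθ
    rcases hθ with hθ | ⟨i, -, hi⟩
    · obtain ⟨y, rfl⟩ := hΦ θ hθ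
      exact mem_algebraicClosure_iff.mp y.2
    · rw [Finset.mem_image] at hi
      obtain ⟨m, -, rfl⟩ := hi
      exact hF i m
  have hFΘ : ∀ i m, (F i).coeff m ≠ 0 → (F i).coeff m ∈ Θ := by
    intro i m hm
    rw [hΘdef, Finset.mem_union, Finset.mem_biUnion]
    exact Or.inr ⟨i, Finset.mem_univ i, Finset.mem_image.mpr
      ⟨m, MvPolynomial.mem_support_iff.mpr hm, rfl⟩⟩
  set k := algebraicClosure K Ω with hk
  have htk : Transcendental k t := by
    intro h
    exact ht (h.restrictScalars K)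
  have hKk : ∀ a ∈ IntermediateField.adjoin K {t}, a ∈ IntermediateField.adjoin k {t} := by
    intro a ha
    exact Pool.Agent.Helper33.SYM.adjoin_sub
      (fun b => (IntermediateField.adjoin k {t}).algebraMap_mem (algebraMap K k b))
      (IntermediateField.subset_adjoin _ _) ha
  have hΘk : ∀ θ ∈ Θ, IsAlgebraic (IntermediateField.adjoin k {t}) θ := fun θ hθ =>
    Pool.Agent.Helper33.SYM.alg_mono hKk (hΘ θ hθ)
  have hcoe : ∀ {K' : Type u} [Field K'] [Algebra K' Ω] (i) (m),
      (F i).coeff m ∈ IntermediateField.adjoin K' (insert t (Θ : Set Ω)) := by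
    intro K' _ _ i m
    by_cases h0 : (F i).coeff m = 0
    · rw [h0]
      exact zero_mem _
    · exact IntermediateField.subset_adjoin _ _ (Set.mem_insert_of_mem _ (hFΘ i m h0))
  obtain ⟨p, hp⟩ := tower_in t htk Θ hΘk F (fun i m => hcoe i m) hdeg hdis
  choose η hη using fun i => IsAlgClosed.exists_pow_nat_eq
    (MvPolynomial.eval (fun i => aeval t (p i)) (F i)) (n := 2) two_pos
  have htalg : IsAlgebraic (IntermediateField.adjoin K {t}) t :=
    isAlgebraic_algebraMap (⟨t, IntermediateField.mem_adjoin_simple_self K t⟩ :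
      IntermediateField.adjoin K {t})
  have hηalg : ∀ i, IsAlgebraic (IntermediateField.adjoin K {t}) (η i) := by
    intro i
    refine IsAlgebraic.of_pow two_pos ?_
    rw [hη i, ← mem_algebraicClosure_iff]
    refine MvPolynomial.eval_mem (fun m _ => mem_algebraicClosure_iff.mpr (hF i m)) (fun l => ?_)
    rw [mem_algebraicClosure_iff]
    rw [← mem_algebraicClosure_iff]
    exact aeval_int_mem _ (mem_algebraicClosure_iff.mpr htalg) _
  obtain ⟨K₁, hfin, z, G, hΘz, hG, hr, hGz, hirr⟩ := exists_curve t ht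
    (Θ ∪ Finset.univ.image η) (by
      intro θ hθ
      rw [Finset.mem_union, Finset.mem_image] at hθ
      rcases hθ with hθ | ⟨i, -, rfl⟩
      · exact hΘ θ hθ
      · exact hηalg i)
  have hNF : NumberField K₁ := NumberField.of_module_finite K K₁
  have ht₁ : Transcendental K₁ t := fun h => ht (h.restrictScalars K)
  have htz : t ∈ IntermediateField.adjoin K₁ {t, z} :=
    IntermediateField.subset_adjoin _ _ (by simp)
  have hzz : z ∈ IntermediateField.adjoin K₁ {t, z} :=
    IntermediateField.subset_adjoin _ _ (by simp)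
  set L₀ : IntermediateField K₁ Ω := IntermediateField.adjoin K₁ (insert t (Θ : Set Ω)) with hL₀
  set M : IntermediateField K₁ Ω := IntermediateField.adjoin K₁ {t, z} with hM
  have hle : L₀ ≤ M := by
    rw [hL₀, IntermediateField.adjoin_le_iff]
    rintro a (rfl | ha)
    · exact htz
    · exact hΘz a (Finset.mem_union_left _ ha)
  have hηM : ∀ i, η i ∈ M := fun i =>
    hΘz _ (Finset.mem_union_right _ (Finset.mem_image_of_mem _ (Finset.mem_univ i)))
  have htL : t ∈ L₀ := IntermediateField.subset_adjoin _ _ (Set.mem_insert _ _)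
  have hK₁alg : ∀ a : K₁, IsAlgebraic K (algebraMap K₁ Ω a) := fun a =>
    (Algebra.IsAlgebraic.isAlgebraic (R := K) a).algebraMap
  have hL₀alg : ∀ a ∈ L₀, IsAlgebraic (IntermediateField.adjoin K {t}) a := by
    refine isAlgebraic_of_mem_adjoin (fun a => (hK₁alg a).tower_top _) _ ?_
    rintro a (rfl | ha)
    · exact htalg
    · exact hΘ a ha
  have hx₀ : AlgebraicIndependent L₀ x := algebraicIndependent_of_forall_mem L₀ hL₀alg hx
  have hΨ : ∀ i, ∃ Ψ : MvPolynomial (Fin n) L₀, MvPolynomial.map (algebraMap L₀ Ω) Ψ = F i := by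
    intro i
    have h1 := (MvPolynomial.mem_range_map_iff_coeffs_subset (f := algebraMap L₀ Ω)
      (x := F i)).mpr (by
        intro a ha
        rw [Finset.mem_coe, MvPolynomial.mem_coeffs_iff] at ha
        obtain ⟨m, -, rfl⟩ := ha
        exact ⟨⟨_, hcoe i m⟩, rfl⟩)
    exact h1
  choose Ψ hΨ using hΨ
  set c : Fin n → L₀ := fun i => aeval (⟨t, htL⟩ : L₀) (p i) with hc
  have hcΩ : ∀ i, ((c i : L₀) : Ω) = aeval t (p i) := by
    intro i
    exact (aeval_algebraMap_apply Ω (⟨t, htL⟩ : L₀) (p i)).symm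
  have heval : ∀ (ξ : Fin n → L₀) (i : Fin s), ((MvPolynomial.eval ξ (Ψ i) : L₀) : Ω) =
      MvPolynomial.eval (fun l => ((ξ l : L₀) : Ω)) (F i) := by
    intro ξ i
    rw [← hΨ i, MvPolynomial.eval_map]
    exact MvPolynomial.eval₂_comp (algebraMap L₀ Ω) ξ (Ψ i)
  have hwΨ : ∀ i, w i ^ 2 = MvPolynomial.aeval x (Ψ i) := by
    intro i
    rw [hw i, ← hΨ i, MvPolynomial.eval_map]
    rfl
  have hηΨ : ∀ i, η i ^ 2 = ((MvPolynomial.eval c (Ψ i) : L₀) : Ω) := by
    intro i
    rw [heval, hη i]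
    congr 2
    funext l
    exact (hcΩ l).symm
  have hT : ∀ W : Submodule K₁ (MvPolynomial (Fin n) L₀), W.FG →
      ∃ (ξ : Fin n → L₀) (ρ : Fin s → L₀),
        (∀ j, MvPolynomial.eval ξ (Ψ j) = ρ j ^ 2 * MvPolynomial.eval c (Ψ j)) ∧
        ∀ g ∈ W, g ≠ 0 → MvPolynomial.eval ξ g ≠ 0 := by
    rintro W ⟨T, rfl⟩
    set φ : MvPolynomial (Fin n) L₀ →+* MvPolynomial (Fin n) Ω :=
      MvPolynomial.map (algebraMap L₀ Ω) with hφ
    have hL₀k : ∀ a ∈ L₀, a ∈ IntermediateField.adjoin k (insert t (Θ : Set Ω)) := by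
      intro a ha
      refine Pool.Agent.Helper33.SYM.adjoin_sub (fun b => ?_)
        (IntermediateField.subset_adjoin _ _) ha
      exact (IntermediateField.adjoin k (insert t (Θ : Set Ω))).algebraMap_mem
        (⟨algebraMap K₁ Ω b, mem_algebraicClosure_iff.mpr (hK₁alg b)⟩ : k)
    set W' : Submodule k (MvPolynomial (Fin n) Ω) :=
      Submodule.span k ((T.image φ : Finset (MvPolynomial (Fin n) Ω)) : Set _) with hW'
    have hWW : ∀ g ∈ Submodule.span K₁ (T : Set (MvPolynomial (Fin n) L₀)), φ g ∈ W' := by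
      intro g hg
      induction hg using Submodule.span_induction with
      | mem g hg =>
        exact Submodule.subset_span (Finset.mem_coe.mpr (Finset.mem_image_of_mem φ hg))
      | zero => rw [map_zero]; exact zero_mem _
      | add a b _ _ h1 h2 => rw [map_add]; exact add_mem h1 h2
      | smul a g _ h1 =>
        have h2 : φ (a • g) =
            (⟨algebraMap K₁ Ω a, mem_algebraicClosure_iff.mpr (hK₁alg a)⟩ : k) • φ g := by
          apply MvPolynomial.ext
          intro m
          rw [hφ, MvPolynomial.coeff_map, MvPolynomial.coeff_smul, MvPolynomial.coeff_smul,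
            MvPolynomial.coeff_map]
          rfl
        rw [h2]
        exact Submodule.smul_mem _ _ h1
    have hWc : ∀ g ∈ W', ∀ m, g.coeff m ∈ IntermediateField.adjoin k (insert t (Θ : Set Ω)) := by
      intro g hg m
      induction hg using Submodule.span_induction with
      | mem g hg =>
        obtain ⟨g', -, rfl⟩ := Finset.mem_image.mp (Finset.mem_coe.mp hg)
        rw [hφ, MvPolynomial.coeff_map]
        exact hL₀k _ (g'.coeff m).2
      | zero => rw [MvPolynomial.coeff_zero]; exact zero_mem _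
      | add a b _ _ h1 h2 => rw [MvPolynomial.coeff_add]; exact add_mem h1 h2
      | smul a g _ h1 =>
        rw [MvPolynomial.coeff_smul, Algebra.smul_def]
        exact mul_mem ((IntermediateField.adjoin k (insert t (Θ : Set Ω))).algebraMap_mem a) h1
    obtain ⟨ξ, ρ, hξ, hρ, h1, h2⟩ := hp L₀.toSubfield hL₀k htL (fun i m => hcoe i m) W'
      ⟨_, rfl⟩ hWc
    refine ⟨fun i => ⟨ξ i, hξ i⟩, fun i => ⟨ρ i, hρ i⟩, fun i => ?_, fun g hg hg0 h => ?_⟩
    · apply Subtype.ext
      change ((MvPolynomial.eval (fun i => (⟨ξ i, hξ i⟩ : L₀)) (Ψ i) : L₀) : Ω) =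
        ρ i ^ 2 * ((MvPolynomial.eval c (Ψ i) : L₀) : Ω)
      rw [heval, ← hηΨ, hη]
      exact h1 i
    · refine h2 (φ g) (hWW g hg) ?_ ?_
      · intro h3
        exact hg0 (MvPolynomial.map_injective _ (algebraMap L₀ Ω).injective
          (h3.trans (map_zero _).symm))
      · rw [hφ, MvPolynomial.eval_map]
        have h4 := MvPolynomial.eval₂_comp (algebraMap L₀ Ω) (fun i => (⟨ξ i, hξ i⟩ : L₀)) g
        rw [h, map_zero] at h4
        exact h4.symm
  set A₁ : Subalgebra K₁ Ω := Algebra.adjoin K₁ (S : Set Ω) with hA₁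
  have hA₁fg : A₁.FG := ⟨S, rfl⟩
  have hA₁ft : Algebra.FiniteType K₁ A₁ := (Subalgebra.fg_iff_finiteType A₁).mp hA₁fg
  have hA₁E : ∀ a ∈ A₁, a ∈ IntermediateField.adjoin L₀ (Set.range x ∪ Set.range w) := by
    set E₁ := IntermediateField.adjoin L₀ (Set.range x ∪ Set.range w) with hE₁
    have h1 : A₁ ≤ (E₁.restrictScalars K₁).toSubalgebra := by
      rw [hA₁, Algebra.adjoin_le_iff]
      intro s hs
      change s ∈ E₁
      refine Pool.Agent.Helper33.SYM.adjoin_sub (K := K) (fun b => ?_) ?_ (hΦS s hs)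
      · exact E₁.algebraMap_mem (algebraMap K₁ L₀ (algebraMap K K₁ b))
      · rintro a (ha | ha)
        · exact E₁.algebraMap_mem (⟨a, IntermediateField.subset_adjoin _ _
            (Set.mem_insert_of_mem _ (Finset.mem_union_left _ ha))⟩ : L₀)
        · exact IntermediateField.subset_adjoin _ _ ha
    exact fun a ha => h1 ha
  obtain ⟨N₀, hN₀⟩ := master K₁ A₁ hG hr hirr M
    ⟨t, htz⟩ ⟨z, hzz⟩ (by
      intro h
      apply ht₁
      exact h.algebraMap (A := Ω))
    (by
      apply M.val.injective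
      rw [map_zero]
      change M.val.toRingHom _ = 0
      rw [hom_eval₂]
      have h3 : M.val.toRingHom.comp
          (aeval (⟨t, htz⟩ : M) : K₁[X] →ₐ[K₁] M).toRingHom =
          (aeval t : K₁[X] →ₐ[K₁] Ω).toRingHom := by
        apply Polynomial.ringHom_ext
        · intro a
          simp
        · simp
      rw [h3]
      exact hGz)
    (adjoin_pair_eq_top t z htz hzz)
    (fun W hW => Pool.Agent.Helper94.FAM.escape L₀ M hle x w Ψ hx₀ hwΨ c η hηM hηΨ hT A₁ hA₁fg hA₁E W hW)
  refine ⟨N₀, fun N hN => ?_⟩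
  have hjA : ∀ a, j a ∈ A₁.restrictScalars K := by
    have h3 : Algebra.adjoin K (S₀ : Set A) ≤ (A₁.restrictScalars K).comap j := by
      rw [Algebra.adjoin_le_iff]
      intro s hs
      rw [SetLike.mem_coe, Subalgebra.mem_comap, Subalgebra.mem_restrictScalars, hA₁]
      exact Algebra.subset_adjoin (Finset.mem_coe.mpr (Finset.mem_image_of_mem j hs))
    intro a
    rw [hS₀] at h3
    exact h3 Algebra.mem_top
  let f : A →ₐ[K] A₁ := j.codRestrict (A₁.restrictScalars K) hjA
  refine Helper83.SYM.descend (K₁ := K₁) f (fun n v hv => ?_) (hN₀ N hN)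
  have h2 : LinearIndependent K (ι ∘ v) := hv.map' ι.toLinearMap (LinearMap.ker_eq_bot.mpr hι)
  have h3 := Pool.Agent.Helper55.SYM.linearIndependent_of_closed (K := K) (Ω := Ω) hK K₁ n _ h2
  exact LinearIndependent.of_comp A₁.val.toLinearMap h3

theorem degreeOf_map_of_injective {R S σ : Type*} [CommSemiring R] [CommSemiring S] {f : R →+* S}
    (hf : Function.Injective f) (p : MvPolynomial σ R) (i : σ) :
    (MvPolynomial.map f p).degreeOf i = p.degreeOf i := by
  classical
  rw [MvPolynomial.degreeOf_def, MvPolynomial.degreeOf_def,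
    MvPolynomial.degrees_map_of_injective _ hf]

theorem fam_main_aux (K : Type u) [Field K] [NumberField K] (E : Type u) [Field E] [Algebra K E]
    (hK : ∀ e : E, IsAlgebraic K e → e ∈ Set.range (algebraMap K E))
    (B : IntermediateField K E) (htr : Algebra.trdeg K B = 1)
    (Ω : Type u) [Field Ω] [IsAlgClosed Ω] [Algebra K Ω] [Algebra E Ω] [IsScalarTower K E Ω]
    {n s : ℕ} (x : Fin n → Ω) (w : Fin s → Ω)
    (F : Fin s → MvPolynomial (Fin n) (algebraicClosure B Ω))
    (hx : AlgebraicIndependent B x) (hw : ∀ j, w j ^ 2 = MvPolynomial.aeval x (F j))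
    (hdeg : ∀ j i, (F j).degreeOf i ≤ 4)
    (hdis : ∀ i j k, (F j).degreeOf i ≠ 0 → (F k).degreeOf i ≠ 0 → j = k)
    (hE : ∀ e : E, algebraMap E Ω e ∈ IntermediateField.adjoin
      (algebraicClosure B Ω) (Set.range x ∪ Set.range w))
    (A : Type u) [CommRing A] [Algebra K A] [Algebra.FiniteType K A]
    (ι : A →ₐ[K] E) (hι : Function.Injective ι) :
    ∃ N₀ : ℕ, ∀ N ≥ N₀, PDA K (symPow K A N) := by
  have htB : ∃ t : B, Transcendental K t := by
    by_contra h
    push Not at h
    have h1 : Algebra.IsAlgebraic K B := ⟨fun b => by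
      have := h b
      rwa [Transcendental, not_not] at this⟩
    rw [trdeg_eq_zero] at htr
    exact zero_ne_one htr
  obtain ⟨t, ht⟩ := htB
  set tΩ : Ω := algebraMap B Ω t with htΩ
  have htt : Transcendental K tΩ := by
    intro h
    exact ht ((isAlgebraic_algebraMap_iff (algebraMap B Ω).injective).mp h)
  have hiff := Pool.Agent.Helper51.SYM.isAlgebraic_iff (Ω := Ω) B htr tΩ htt
    (isAlgebraic_algebraMap t)
  have hmem : ∀ z : algebraicClosure B Ω,
      (z : Ω) ∈ algebraicClosure (IntermediateField.adjoin K {tΩ}) Ω := by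
    intro z
    rw [mem_algebraicClosure_iff, ← hiff]
    exact mem_algebraicClosure_iff.mp z.2
  have hx' : AlgebraicIndependent (IntermediateField.adjoin K {tΩ}) x := by
    refine algebraicIndependent_of_forall_mem (F₁ := B) _ (fun a ha => ?_) hx
    rw [hiff]
    exact isAlgebraic_algebraMap (⟨a, ha⟩ : IntermediateField.adjoin K {tΩ})
  have hinj : Function.Injective (algebraMap (algebraicClosure B Ω) Ω) :=
    (algebraMap (algebraicClosure B Ω) Ω).injective
  refine fam_core K E hK Ω tΩ htt x w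
    (fun j => MvPolynomial.map (algebraMap (algebraicClosure B Ω) Ω) (F j)) ?_ hx' ?_ ?_ ?_ ?_ A ι hι
  · intro j m
    rw [MvPolynomial.coeff_map]
    exact mem_algebraicClosure_iff.mp (hmem ((F j).coeff m))
  · intro j
    rw [hw j, MvPolynomial.eval_map]
    rfl
  · intro j i
    rw [degreeOf_map_of_injective hinj]
    exact hdeg j i
  · intro i j k h1 h2
    rw [degreeOf_map_of_injective hinj] at h1 h2
    exact hdis i j k h1 h2
  · intro e
    refine Pool.Agent.Helper33.SYM.adjoin_sub (fun b => ?_) (IntermediateField.subset_adjoin _ _)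
      (hE e)
    exact (IntermediateField.adjoin (algebraicClosure (IntermediateField.adjoin K {tΩ}) Ω)
      (Set.range x ∪ Set.range w)).algebraMap_mem ⟨_, hmem b⟩

theorem fam_main (K : Type u) [Field K] [NumberField K] (E : Type u) [Field E] [Algebra K E]
    (hK : ∀ e : E, IsAlgebraic K e → e ∈ Set.range (algebraMap K E))
    (B : IntermediateField K E) (htr : Algebra.trdeg K B = 1) (hB : DoubleCoverType B)
    (A : Type u) [CommRing A] [Algebra K A] [Algebra.FiniteType K A]
    (ι : A →ₐ[K] E) (hι : Function.Injective ι) :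
    ∃ N₀ : ℕ, ∀ N ≥ N₀, PDA K (symPow K A N) := by
  obtain ⟨n, s, x, w, F, hx, hw, hdeg, hdis, hE⟩ := hB
  exact fam_main_aux K E hK B htr (AlgebraicClosure E) x w F hx hw hdeg hdis hE A ι hι

end Pool.Agent.Helper16.FAM
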