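import Pool.Agent.Helper42.FAM.P5

/-!
# Families over a curve, P6: unbounded points on `w ^ 2 = q(x)`
-/

namespace Pool.Agent.Helper16.FAM

open Polynomial
open Pool.Agent.Helper42.FAM (orbit)

universe u

/-- `q(X ^ e + a)` is separable when `q` is and `q(a) ≠ 0`. -/
theorem separable_comp {F : Type u} [Field F] [CharZero F] {q : F[X]} (hs : q.Separable) {a : F}
    (ha : q.eval a ≠ 0) {e : ℕ} (he : e ≠ 0) : (q.comp (X ^ e + C a)).Separable := by
  rw [Polynomial.Separable, derivative_comp]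
  have h1 : IsCoprime (q.comp (X ^ e + C a)) ((derivative q).comp (X ^ e + C a)) := by
    have := IsCoprime.map hs (compRingHom (X ^ e + C a))
    simpa using this
  have h2 : IsCoprime (q.comp (X ^ e + C a)) (X : F[X]) := by
    refine (((irreducible_X : Irreducible (X : F[X])).coprime_iff_not_dvd).2 ?_).symm
    rw [X_dvd_iff, coeff_zero_eq_eval_zero, eval_comp]
    simpa [he] using ha
  have h3 : derivative (X ^ e + C a) = C (e : F) * X ^ (e - 1) := by
    rw [derivative_add, derivative_C, add_zero, derivative_X_pow]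
  rw [h3]
  refine IsCoprime.mul_right (IsCoprime.mul_right ?_ h2.pow_right) h1
  have hu : IsUnit (C (e : F)) := isUnit_C.2 (isUnit_iff_ne_zero.2 (by exact_mod_cast he))
  obtain ⟨v, hv⟩ := hu.exists_left_inv
  exact ⟨0, v, by rw [hv]; ring⟩

/-- P6: unbounded points on `w ^ 2 = q(x)`, `q` separable of degree at most four. -/
theorem unbounded {L : Type u} [Field L] [CharZero L] [Height.AdmissibleAbsValues L]
    (L₁ : Subfield L) (q : L₁[X]) (hs : q.Separable) (h4 : q.natDegree ≤ 4) (t : L₁)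
    (ht : 1 < Height.mulHeight₁ (t : L)) :
    ∀ Z : Finset L₁, ∃ p : ℤ[X], aeval t p ∉ Z ∧ ∀ M : ℝ, ∃ x ρ : L₁,
      M ≤ Height.mulHeight₁ (x : L) ∧ q.eval x = ρ ^ 2 * q.eval (aeval t p) := by
  intro Z
  have hBZ : ∀ z ∈ Z, Height.mulHeight₁ (z : L) ≤ ∑ z ∈ Z, Height.mulHeight₁ (z : L) :=
    fun z hz => Finset.single_le_sum (f := fun z : L₁ => Height.mulHeight₁ (z : L))
      (fun z _ => Height.mulHeight₁_nonneg _) hz
  set BZ : ℝ := ∑ z ∈ Z, Height.mulHeight₁ (z : L) with hBZdef
  by_cases h0 : q.natDegree = 0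
  · -- constant polynomial
    obtain ⟨d, hd⟩ := pow_unbounded_of_one_lt BZ ht
    refine ⟨X ^ d, fun hmem => ?_, fun M => ?_⟩
    · have h1 := hBZ _ hmem
      simp only [map_pow, aeval_X, SubmonoidClass.coe_pow] at h1
      rw [Height.mulHeight₁_pow] at h1
      exact absurd hd (not_lt.2 h1)
    · obtain ⟨m, hm⟩ := pow_unbounded_of_one_lt M ht
      refine ⟨t ^ m, 1, ?_, ?_⟩
      · rw [SubmonoidClass.coe_pow, Height.mulHeight₁_pow]
        exact hm.le
      · rw [eq_C_of_natDegree_eq_zero h0]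
        simp
  · -- reduction to degree three or four
    obtain ⟨e, he, h3e, h4e⟩ : ∃ e : ℕ, e ≠ 0 ∧ 3 ≤ q.natDegree * e ∧ q.natDegree * e ≤ 4 := by
      have h5 : q.natDegree = 1 ∨ q.natDegree = 2 ∨ q.natDegree = 3 ∨ q.natDegree = 4 := by
        omega
      rcases h5 with h | h | h | h
      · exact ⟨3, by norm_num, by omega, by omega⟩
      · exact ⟨2, by norm_num, by omega, by omega⟩
      · exact ⟨1, by norm_num, by omega, by omega⟩
      · exact ⟨1, by norm_num, by omega, by omega⟩
    have hq0 : q ≠ 0 := fun h => h0 (by rw [h, natDegree_zero])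
    obtain ⟨a, ha⟩ : ∃ a : ℤ, q.eval (a : L₁) ≠ 0 := by
      by_contra hcon
      push Not at hcon
      exact hq0 (eq_zero_of_infinite_isRoot q
        (Set.infinite_of_injective_forall_mem (f := fun a : ℤ => (a : L₁)) Int.cast_injective
          hcon))
    have hsep := separable_comp hs ha he
    have hdeg : (q.comp (X ^ e + C (a : L₁))).natDegree = q.natDegree * e := by
      rw [natDegree_comp, natDegree_X_pow_add_C]
    obtain ⟨B, hB⟩ := orbit L₁ (q.comp (X ^ e + C (a : L₁))) hsep (by rw [hdeg]; exact h3e)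
      (by rw [hdeg]; exact h4e)
    have heval : ∀ y : L₁, (q.comp (X ^ e + C (a : L₁))).eval y = q.eval (y ^ e + a) := by
      intro y
      rw [eval_comp]
      simp
    -- the height of `y ^ e + a`
    obtain ⟨K, hK, hKy⟩ : ∃ K : ℝ, 0 < K ∧ ∀ y : L₁,
        Height.mulHeight₁ (y : L) ≤ K * Height.mulHeight₁ ((y ^ e + (a : L₁) : L₁) : L) := by
      refine ⟨2 ^ Height.totalWeight L * Height.mulHeight₁ ((a : ℤ) : L), ?_, fun y => ?_⟩
      · have := Height.mulHeight₁_pos ((a : ℤ) : L)
        positivity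
      · have h1 := Height.mulHeight₁_sub_le ((y ^ e + (a : L₁) : L₁) : L) ((a : ℤ) : L)
        have h2 : ((y ^ e + (a : L₁) : L₁) : L) - ((a : ℤ) : L) = (y : L) ^ e := by
          push_cast
          ring
        rw [h2, Height.mulHeight₁_pow] at h1
        have h3 : Height.mulHeight₁ (y : L) ≤ Height.mulHeight₁ (y : L) ^ e :=
          le_self_pow₀ (Height.one_le_mulHeight₁ _) he
        refine h3.trans (h1.trans (le_of_eq ?_))
        ring
    obtain ⟨d, hd⟩ := pow_unbounded_of_one_lt (max B (K * BZ)) ht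
    have hd1 : Height.mulHeight₁ ((t ^ d : L₁) : L) = Height.mulHeight₁ (t : L) ^ d := by
      rw [SubmonoidClass.coe_pow, Height.mulHeight₁_pow]
    have hp : aeval t (X ^ (d * e) + C a : ℤ[X]) = (t ^ d) ^ e + (a : L₁) := by
      simp [pow_mul]
    refine ⟨X ^ (d * e) + C a, fun hmem => ?_, fun M => ?_⟩
    · rw [hp] at hmem
      have h1 := hBZ _ hmem
      have h2 := hKy (t ^ d)
      rw [hd1] at h2
      have h3 := mul_le_mul_of_nonneg_left h1 hK.le
      have h4 := (le_max_right B (K * BZ)).trans_lt hd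
      linarith
    · obtain ⟨y, ρ, hy, hρ⟩ := hB (t ^ d) (by
        rw [hd1]; exact ((le_max_left B (K * BZ)).trans_lt hd).le) (K * M)
      refine ⟨y ^ e + a, ρ, ?_, ?_⟩
      · have h2 := hKy y
        exact le_of_mul_le_mul_left (hy.trans h2) hK
      · rw [hp, ← heval, ← heval]
        exact hρ

end Pool.Agent.Helper16.FAM
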